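import Pool.Agent.X194.RB.Main

/-!
# Sequences with an irrational rotation limit do not form a Borel set

The set `S` of all integer sequences `(n_k)` for which some `z` on the unit circle, not a root of
unity, satisfies `z ^ n_k → 1` is analytic but not Borel in the space of all integer sequences.
-/

namespace Pool.Agent.Results.MP_9e8ffd_lc.NotBorel

open Filter Topology Pool.Agent.X194.RB

/-- The integer sequences `n` for which there is an irrational point `z` of the unit circle
with `z ^ (n k) → 1`. -/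
def S : Set (ℕ → ℤ) :=
  {n | ∃ z : ℂ, ‖z‖ = 1 ∧ (∀ m : ℕ, 0 < m → z ^ m ≠ 1) ∧
    Tendsto (fun k => z ^ (n k)) atTop (𝓝 1)}

theorem mem_S_iff (n : ℕ → ℤ) : n ∈ S ↔
    ∃ θ : ℝ, (∀ m : ℕ, 0 < m → ∀ c : ℤ, (m : ℝ) * θ ≠ c) ∧
      Tendsto (fun k => N ((n k : ℝ) * θ)) atTop (𝓝 0) := by
  have hroot : ∀ (θ : ℝ) (m : ℕ), (Complex.exp ((2 * Real.pi * θ : ℝ) * Complex.I)) ^ m = 1 ↔
      ∃ c : ℤ, (m : ℝ) * θ = c := by
    intro θ m
    rw [← Complex.exp_nat_mul, Complex.exp_eq_one_iff]
    have hpi : (2 * (Real.pi : ℂ) * Complex.I) ≠ 0 := Complex.two_pi_I_ne_zero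
    constructor
    · rintro ⟨c, hc⟩
      refine ⟨c, ?_⟩
      have h1 : ((m : ℂ) * θ - c) * (2 * Real.pi * Complex.I) = 0 := by
        push_cast at hc
        linear_combination hc
      have h2 : (m : ℂ) * θ - c = 0 := (mul_eq_zero.1 h1).resolve_right hpi
      have h3 : ((m * θ - c : ℝ) : ℂ) = 0 := by push_cast; exact h2
      have h4 : (m : ℝ) * θ - c = 0 := by exact_mod_cast h3
      linarith
    · rintro ⟨c, hc⟩
      refine ⟨c, ?_⟩
      have h1 : (m : ℂ) * θ = c := by exact_mod_cast congrArg (fun x : ℝ => (x : ℂ)) hc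
      push_cast
      linear_combination (2 * Real.pi * Complex.I) * h1
  constructor
  · rintro ⟨z, hz, hroots, hlim⟩
    obtain ⟨φ, rfl⟩ := (Complex.norm_eq_one_iff z).1 hz
    have hφ : (2 * Real.pi * (φ / (2 * Real.pi)) : ℝ) = φ := by
      have := Real.pi_pos
      field_simp
    refine ⟨φ / (2 * Real.pi), fun m hm c hc => ?_, ?_⟩
    · refine hroots m hm ?_
      have := (hroot (φ / (2 * Real.pi)) m).2 ⟨c, hc⟩
      rwa [hφ] at this
    · rw [← tendsto_iff, hφ]
      exact hlim
  · rintro ⟨θ, h1, h2⟩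
    refine ⟨Complex.exp ((2 * Real.pi * θ : ℝ) * Complex.I), Complex.norm_exp_ofReal_mul_I _,
      fun m hm h => ?_, (tendsto_iff θ n).2 h2⟩
    obtain ⟨c, hc⟩ := (hroot θ m).1 h
    exact h1 m hm c hc

/-- `S` is not a Borel set (the space of integer sequences carries the product of the discrete
topologies). -/
theorem result : ¬ @MeasurableSet (ℕ → ℤ) (borel (ℕ → ℤ)) S := by
  intro hS
  have hS' : MeasurableSet S := by
    have hb : (MeasurableSpace.pi : MeasurableSpace (ℕ → ℤ)) = borel (ℕ → ℤ) :=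
      BorelSpace.measurable_eq
    rw [hb]
    exact hS
  apply not_measurable_A
  have hA : A = (fun τ : ℕ → Bool => (fun k => sq (Tr τ) k : ℕ → ℤ)) ⁻¹' S := by
    ext τ
    rw [Set.mem_preimage, mem_S_iff]
    constructor
    · intro h
      obtain ⟨y, hy⟩ := chain_of_mem_A h
      exact ⟨tl y 0, irrational_tl y, tendsto_of_pass (pass_of_branch y hy)⟩
    · rintro ⟨θ, h1, h2⟩
      obtain ⟨s, j, h3, h4⟩ := chain_of_pass (pass_of_tendsto h2) h1
      exact mem_A_of_chain s j h3 h4
  rw [hA]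
  exact measurable_sq hS'

end Pool.Agent.Results.MP_9e8ffd_lc.NotBorel
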